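import Pool.Agent.J4H20.TQ.Stm

/-!
# Project LV: `m`-rank at least `r₂ + e - 1 - j` in every signature of degree `n = (m - 1) e + j`, all `m ≥ 2`: statements

Improves Levin's theorem (2007) in every signature, for all `m ≥ 2` and all `n = (m - 1) e + j`, `j + 2 ≤ e`.  As TP, TQ
(`Pool.Agent.J4H20.TP.Stm`, `TQ.Stm`), with two changes: the function `s = (y - g) / h` on the curve `y ^ m = f(x)`,
`f = ∏ (X - a i) = g ^ m + r`, has also poles at the zeros of a monic polynomial `h` of degree `j`, that is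
`(M g(θ) + c h(θ)) ^ m = M ^ m f(θ)`, an equation of degree `(m - 1) e + j`; and it is irreducible by Eisenstein's criterion
at an auxiliary prime `T` (so `m` need not be a prime).
-/

set_option autoImplicit false

namespace Pool.Agent.J4H20.LV

open Polynomial NumberField nonZeroDivisors Pool.Agent.W289.CG Filter Topology

/-- the data -/
structure DatL (m e j k : ℕ) where
  a : Fin (k + 2) → ℤ
  g : ℤ[X]
  r : ℤ[X]
  h : ℤ[X]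
  T : ℕ
  b : ℤ
  s : ℤ
  hm : 2 ≤ m
  hje : j + 2 ≤ e
  hk : k + 2 = m * e
  ha : Function.Injective a
  hg : g.Monic
  hgn : g.natDegree = e
  hh : h.Monic
  hhn : h.natDegree = j
  hr : r.degree < ((m - 1) * e : ℕ)
  hf : ∏ i, (X - C (a i)) = g ^ m + r
  hco : ∀ (i : Fin (k + 2)) (q : ℕ), q.Prime →
    (q = 2 ∨ ∃ i' i'', i' ≠ i'' ∧ (q : ℤ) ∣ a i' - a i'') → ¬ (q : ℤ) ∣ h.eval (a i)
  hT : T.Prime
  hT2 : T ≠ 2
  hTa : ∀ i i', i ≠ i' → ¬ (T : ℤ) ∣ a i - a i'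
  hTm : ¬ (T : ℤ) ∣ m * s
  hE1 : C (T : ℤ) ∣ (g + C s * h) ^ m - (g ^ m + r) - C ((m : ℤ) * s) * (X - C b) ^ ((m - 1) * e + j)
  hE2 : ¬ (T : ℤ) ^ 2 ∣ ((g + C s * h) ^ m - (g ^ m + r)).eval b

/-- `(M g + c h) ^ m - M ^ m (g ^ m + r)` -/
noncomputable def HL (m : ℕ) (g r h : ℤ[X]) (c M : ℤ) : ℤ[X] :=
  (C M * g + C c * h) ^ m - C (M ^ m) * (g ^ m + r)

/-- a test for the index `i` -/
structure TstL {m e j k : ℕ} (D : DatL m e j k) (c M : ℤ) (i : Fin k) (q : ℕ) (x : ℤ) : Prop where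
  prime : q.Prime
  four : 4 ∣ q - 1
  root : (q : ℤ) ∣ (HL m D.g D.r D.h c M).eval x
  simple : ¬ (q : ℤ) ∣ (derivative (HL m D.g D.r D.h c M)).eval x
  ne : ∀ l, ((x - D.a l : ℤ) : ZMod q) ≠ 0
  pw : ∀ l, l ≠ i.castSucc.castSucc → l ≠ (Fin.last k).castSucc →
    ∃ y : ZMod q, ((x - D.a l : ℤ) : ZMod q) = y ^ m
  np : ∀ ℓ : ℕ, ℓ.Prime → ℓ ∣ m → ¬ ∃ y : ZMod q, ((x - D.a i.castSucc.castSucc : ℤ) : ZMod q) = y ^ ℓ

/-- (NAT) degree and leading coefficient (binomial theorem; `j < e`), cf. J4H42/TP/Nat.lean -/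
def S_NAT : Prop :=
  ∀ (m e j k : ℕ) (D : DatL m e j k) (c M : ℤ), c ≠ 0 → M ≠ 0 →
    (HL m D.g D.r D.h c M).natDegree = (m - 1) * e + j ∧
      (HL m D.g D.r D.h c M).leadingCoeff = m * c * M ^ (m - 1)

/-- (IRR) `t_IRR : S_NAT → S_IRR`: modulo `T ^ 2` the polynomial is `M ^ m ((g + s h) ^ m - g ^ m - r)`, so it is Eisenstein
at `T` in `X - b` (Gauss lemma for the content, which is prime to `T`) -/
def S_IRR : Prop :=
  ∀ (m e j k : ℕ) (D : DatL m e j k) (c M : ℤ), c ≠ 0 → M ≠ 0 → ¬ (D.T : ℤ) ∣ M →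
    (D.T : ℤ) ^ 2 ∣ c - D.s * M → Irreducible ((HL m D.g D.r D.h c M).map (Int.castRingHom ℚ))

/-- (DSC) `t_DSC : S_NAT → S_DSC`.  There is a prime `P` above `q` with `v(θ) < 0`: otherwise `θ` is integral at `q`, so the
polynomial divided by its leading coefficient `m c M ^ (m - 1)` has `q`-integral coefficients, but modulo `q` it is
`c ^ m h ^ m ≠ 0`.  Then `v (M g) = v (c h)` (leading terms of `∑_{i ≥ 1} binom(m,i) (c h) ^ i (M g) ^ (m - i) = M ^ m r`: if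
`v (M g) > v (c h)` the term `i = m`, if `v (M g) < v (c h)` the term `i = 1` is alone minimal), i.e.
`v(q) = (e - j) (- v(θ))`, `e - j ≥ 2`; the end as in J4H52/TP/Deg.lean (`t_DSC`) -/
def S_DSC : Prop :=
  ∀ (m e j k : ℕ) (D : DatL m e j k) (c M : ℤ) (q : ℕ) (K : Type) [Field K] [NumberField K] (θ : K),
    q.Prime → IsCoprime c M → c ≠ 0 → M ≠ 0 → (q : ℤ) ∣ M → ¬ (q : ℤ) ^ 2 ∣ M → ¬ q ∣ m →
    Irreducible ((HL m D.g D.r D.h c M).map (Int.castRingHom ℚ)) →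
    aeval θ (HL m D.g D.r D.h c M) = 0 → (q : ℤ) ∣ discr K

/-- (LOC) as J4H21/TP/LOCP.lean.  If `P ∤ M`: `v(θ) < 0` gives 0; else at most one `v(θ - a i) > 0`, which is
`m v(g + (c/M) h)`.  If `P ∣ M` and `v(θ) ≥ 0`: `(M g + c h) ^ m = M ^ m f` gives `h(θ) ∈ P`, and `θ - a i ∈ P` would give
`h(a i) ∈ P`, against `IsCoprime (h (a i)) M`; so all `θ - a i` are units. -/
def S_LOC : Prop :=
  ∀ (m e j k : ℕ) (D : DatL m e j k) (K : Type) [Field K] [NumberField K] (θ : K) (c M : ℤ), M ≠ 0 →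
    IsCoprime c M → (∀ i i', i ≠ i' → D.a i - D.a i' ∣ M) → (∀ i, IsCoprime (D.h.eval (D.a i)) M) →
    aeval θ (HL m D.g D.r D.h c M) = 0 →
    (∀ i, θ - (D.a i : K) ≠ 0) → ∀ i i', ∀ v : IsDedekindDomain.HeightOneSpectrum (𝓞 K), ∃ z : ℤ,
      v.valuation K ((θ - (D.a i : K)) / (θ - (D.a i' : K))) = WithZero.exp ((m : ℤ) * z)

/-- (IND) `t_IND : TaskRed → S_IND` as J4H21/TP/INDP.lean, for every prime `ℓ ∣ m` (`- 1` is an `ℓ`-th power modulo `q` as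
`4 ∣ q - 1`) -/
def S_IND : Prop :=
  ∀ (m e j k : ℕ) (D : DatL m e j k) (K : Type) [Field K] [NumberField K] (θ : K) (c M : ℤ) (q : ℕ)
    [Fact q.Prime] (i : Fin k) (x : ℤ), TstL D c M i q x →
    (∃ (φ : K →+* ℚ_[q]) (z : ℤ_[q]), φ θ = (z : ℚ_[q]) ∧ PadicInt.toZMod z = (x : ZMod q)) →
    (∀ l, θ - (D.a l : K) ≠ 0) → ∀ ℓ : ℕ, ℓ.Prime → ℓ ∣ m → ∀ (E : Fin k → ℤ) (y : K),
    (∏ l : Fin k, ((θ - (D.a l.castSucc.castSucc : K)) / (θ - (D.a (Fin.last (k + 1)) : K))) ^ E l =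
        y ^ ℓ ∨
      ∏ l : Fin k, ((θ - (D.a l.castSucc.castSucc : K)) / (θ - (D.a (Fin.last (k + 1)) : K))) ^ E l =
        - y ^ ℓ) → (ℓ : ℤ) ∣ E i

/-- (T1) as J4H74/TP/T1P.lean for a character of order `m`: prescribed `m`-th power classes of shifts (Weil's bound), the
class `ω` of `x - a u` a generator of `F_q ˣ` modulo `m`-th powers -/
def S_T1 : Prop :=
  ∀ (m k : ℕ) (a : Fin k → ℤ) (u v : Fin k) (d B : ℕ), 2 ≤ m → Function.Injective a → u ≠ v →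
    ∃ q : ℕ, q.Prime ∧ B < q ∧ 4 * m ∣ q - 1 ∧ ∃ S : Finset (ZMod q), d < S.card ∧ ∀ x ∈ S,
      (∀ l, x ≠ (a l : ZMod q)) ∧ (∀ l, l ≠ u → l ≠ v → ∃ y : ZMod q, x - (a l : ZMod q) = y ^ m) ∧
      (∃ y : ZMod q, (x - (a u : ZMod q)) * (x - (a v : ZMod q)) = y ^ m) ∧
      ∀ ℓ : ℕ, ℓ.Prime → ℓ ∣ m → ¬ ∃ y : ZMod q, x - (a u : ZMod q) = y ^ ℓ

/-- (T2) one prime `q ≡ - 1` modulo `4 m`: `x` an integer, large (so that `f(x) > 0` and `h(x) ≠ 0`) and not a zero of the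
polynomial below, `q ≡ - 1` modulo `8 m f(x)` (Dirichlet), so `f(x)` is a square modulo `q` (quadratic reciprocity for the
Jacobi symbol) and an `m`-th power `y ^ m`, as `gcd (m, q - 1) ∣ 2`; `s = (y - g(x)) / h(x)`.  Derivative (modulo `M ^ m`):
`m y ^ (m - 1) (g' h - g h') + m f h' - f' h` divided by `h`; if it is zero, then
`m ^ m f ^ (m - 1) (g' h - g h') ^ m = (f' h - m f h') ^ m` in `x`, which is not an identity (value at `a 0`: `f' h ≠ 0`) -/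
def S_T2 : Prop :=
  ∀ (m e j k : ℕ) (D : DatL m e j k) (N : ℕ), ∃ (q : ℕ) (x : ℤ) (s : ZMod q), q.Prime ∧ N < q ∧
    4 * m ∣ q + 1 ∧ ∀ c M : ℤ, ¬ (q : ℤ) ∣ M → (c : ZMod q) = s * (M : ZMod q) →
      (q : ℤ) ∣ (HL m D.g D.r D.h c M).eval x ∧ ¬ (q : ℤ) ∣ (derivative (HL m D.g D.r D.h c M)).eval x

/-- (T3) as J4H17/TP/T3P.lean: `y ^ m = f(x)`, `s = (ζ y - g(x)) / h(x)` with `ζ` one of two `m`-th roots of unity; the
derivative is `M ^ m (ζ⁻¹ m y ^ (m - 1) (g' - g h' / h) + (m f h' - f' h) / h)`, not zero for one of them -/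
def S_T3 : Prop :=
  ∀ (m e j k : ℕ) (D : DatL m e j k), ∃ B : ℕ, ∀ (q : ℕ) [Fact q.Prime] (x : ℤ), B < q → m ∣ q - 1 →
    ∏ l, ((x - D.a l : ℤ) : ZMod q) ≠ 0 → ((D.h.eval x : ℤ) : ZMod q) ≠ 0 →
    (((C (m : ℤ) * (∏ i, (X - C (D.a i))) * derivative D.h -
      derivative (∏ i, (X - C (D.a i))) * D.h).eval x : ℤ) : ZMod q) ≠ 0 →
    (∃ y : ZMod q, ∏ l, ((x - D.a l : ℤ) : ZMod q) = y ^ m) → ∃ s : ZMod q, ∀ c M : ℤ,
      ¬ (q : ℤ) ∣ M → (c : ZMod q) = s * (M : ZMod q) →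
      (q : ℤ) ∣ (HL m D.g D.r D.h c M).eval x ∧ ¬ (q : ℤ) ∣ (derivative (HL m D.g D.r D.h c M)).eval x

/-- (T4) as `TR.S_T4` (J4H17/TR/T4.lean) with pairwise coprime moduli instead of primes (here one of them is `T ^ 2`) and the
primes of `M` named -/
def S_T4 : Prop :=
  ∀ (M₀ : ℤ) (q₀ : ℕ) (L : Finset ℕ) (s : ∀ q : ℕ, ZMod q) (α β : ℝ), M₀ ≠ 0 → q₀.Prime →
    ¬ (q₀ : ℤ) ∣ 2 * M₀ → (∀ q ∈ L, 1 < q ∧ IsCoprime (q : ℤ) (2 * M₀ * q₀)) →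
    (∀ q ∈ L, ∀ q' ∈ L, q ≠ q' → Nat.Coprime q q') → 0 < α → α < β →
    ∃ c M : ℤ, 0 < c ∧ 0 < M ∧ IsCoprime c M ∧ M₀ ∣ M ∧ (q₀ : ℤ) ∣ M ∧ ¬ (q₀ : ℤ) ^ 2 ∣ M ∧
      (∀ q : ℕ, q.Prime → (q : ℤ) ∣ M → q = q₀ ∨ (q : ℤ) ∣ 2 * M₀) ∧ α * M < c ∧ (c : ℝ) < β * M ∧
      ∀ q ∈ L, IsCoprime (q : ℤ) M ∧ (c : ZMod q) = s q * (M : ZMod q)

/-- (CH) `t_CH : S_T1 → S_T2 → S_T3 → S_T4 → S_CH`, as J4H36/TP/Chp.lean: `M₀ = ∏ (a i - a i')`, `q₀ > N` prime, larger than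
`m`, `T`, `|2 M₀|` and all `|h(a i)|` (`h(a i)` is odd, so not 0); one prime for each `i` (T1 with `u = i`, `v = k`, `d` = number
of the zeros of `h (m f h' - f' h)`; this polynomial is not 0: degree, `j < e`), one for T2, and `T ^ 2` with `s`;
`IsCoprime (h (a i)) M` by `hco` -/
def S_CH : Prop :=
  ∀ (m e j k : ℕ) (D : DatL m e j k) (α β : ℝ) (N : ℕ), 0 < α → α < β →
    ∃ (c M : ℤ) (q₀ : ℕ), 0 < c ∧ 0 < M ∧ IsCoprime c M ∧ (∀ i i', i ≠ i' → D.a i - D.a i' ∣ M) ∧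
      (∀ i, IsCoprime (D.h.eval (D.a i)) M) ∧ ¬ (D.T : ℤ) ∣ M ∧ (D.T : ℤ) ^ 2 ∣ c - D.s * M ∧
      q₀.Prime ∧ N < q₀ ∧ (q₀ : ℤ) ∣ M ∧ ¬ (q₀ : ℤ) ^ 2 ∣ M ∧ ¬ q₀ ∣ m ∧ α * M < c ∧ (c : ℝ) < β * M ∧
      (∀ i : Fin k, ∃ (q : ℕ) (x : ℤ), TstL D c M i q x) ∧
      ∃ (q : ℕ) (x : ℤ), q.Prime ∧ 4 * m ∣ q + 1 ∧ (q : ℤ) ∣ (HL m D.g D.r D.h c M).eval x ∧
        ¬ (q : ℤ) ∣ (derivative (HL m D.g D.r D.h c M)).eval x

/-- (EIS) `F = X ^ (m e) - m (X - 1) ^ n`, `n = (m - 1) e + j`, is separable over `ℚ` (a double zero is `m e / (e - j)`, and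
`(m e) ^ (m e) = m n ^ n (e - j) ^ (e - j)` is impossible, as `(m e) ^ (m e) > binom (m e, n) n ^ n (e - j) ^ (e - j)`), so it
splits into different linear factors modulo some prime `T > B` (a prime of degree one in a splitting field);
`F = g₀ ^ m + r₀` over `ℤ[1/m]` (J4H19/TP/R1P.lean `root_step`) and `X ^ e - g₀` is monic of degree `j` -/
def S_EIS : Prop :=
  ∀ m e j B : ℕ, 2 ≤ m → j < e → ∃ (T : ℕ) (ρ : Fin m × Fin e → ℤ) (g₀ r₀ h₀ : ℤ[X]), T.Prime ∧ B < T ∧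
    (∀ i i', i ≠ i' → ¬ (T : ℤ) ∣ ρ i - ρ i') ∧ g₀.Monic ∧ g₀.natDegree = e ∧ h₀.Monic ∧
    h₀.natDegree = j ∧ r₀.degree < ((m - 1) * e : ℕ) ∧
    C (T : ℤ) ∣ ∏ i, (X - C (ρ i)) - (g₀ ^ m + r₀) ∧ C (T : ℤ) ∣ g₀ + h₀ - X ^ e ∧
    C (T : ℤ) ∣ (g₀ + h₀) ^ m - (g₀ ^ m + r₀) - C (m : ℤ) * (X - 1) ^ ((m - 1) * e + j)

/-- (CLL) as `TQ.S_CL` (J4H20/TQ/CLa.lean, CLb.lean, J4H57/TQ/Zz.lean, J4H42/TQ/Fi.lean) with `t` for `2 m`; `p - t` odd -/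
def S_CLL : Prop :=
  ∀ m t : ℕ, t < m → Odd (m - t) → ∃ α : Fin m → ℚ, Function.Injective α ∧ ∑ i, α i = 0 ∧
    ∃ z : Fin (m - 1) → ℂ, Function.Injective z ∧ (∀ i,
      aeval (z i) ((X + 1) ^ m - ∏ i, (X - C (α i : ℝ)) : ℝ[X]) = 0 ∧
      aeval (z i) (derivative ((X + 1) ^ m - ∏ i, (X - C (α i : ℝ)) : ℝ[X])) ≠ 0) ∧
      {i | (z i).im = 0}.ncard = t

/-- `(m, e, j, ρ)` has a shape: a real equation with `ρ` real and all `n` complex solutions simple -/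
def Shp (m e j ρ : ℕ) : Prop :=
  ∃ (b : Fin m × Fin e → ℚ) (g r h : ℚ[X]) (σ : ℝ), Function.Injective b ∧ g.Monic ∧
    g.natDegree = e ∧ h.Monic ∧ h.natDegree = j ∧ r.degree < ((m - 1) * e : ℕ) ∧
    ∏ i, (X - C (b i)) = g ^ m + r ∧ 0 < σ ∧ ∃ w : Fin ((m - 1) * e + j) → ℂ, Function.Injective w ∧
      (∀ i, aeval (w i) ((g.map (algebraMap ℚ ℝ) + C σ * h.map (algebraMap ℚ ℝ)) ^ m -
          (g ^ m + r).map (algebraMap ℚ ℝ)) = 0 ∧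
        aeval (w i) (derivative ((g.map (algebraMap ℚ ℝ) + C σ * h.map (algebraMap ℚ ℝ)) ^ m -
          (g ^ m + r).map (algebraMap ℚ ℝ))) ≠ 0) ∧ {i | (w i).im = 0}.ncard = ρ

/-- (GM) as `TQ.S_G` (J4H97/TQ/G.lean) for all `m ≥ 2` (check the proof for `m = 2`) -/
def S_GM : Prop :=
  ∀ (m e : ℕ) (a : Fin e → ℚ) (α : Fin m × Fin e → ℚ), 2 ≤ m → (∀ l, ∑ i, α (i, l) = 0) →
    ∃ (h : Fin e → ℚ[X]) (r : Fin ((m - 1) * e) → ℚ[X]), ∀ ε : ℚ,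
      ∏ i : Fin m × Fin e, (X - C (a i.2 + ε * α i)) =
        (∏ l, (X - C (a l)) + C (ε ^ 2) * ∑ l : Fin e, C ((h l).eval ε) * X ^ (l : ℕ)) ^ m +
          ∑ l : Fin ((m - 1) * e), C ((r l).eval ε) * X ^ (l : ℕ)

/-- (SHA) `t_SHA : TQ.S_PL → S_CLL → S_GM → S_SHA`, as J4H20/TQ/R3Q.lean, LIM.lean.  `h` a monic rational polynomial of degree
`j` with `j` simple complex zeros, `u` of them real, `h(l) ≠ 0`; `a l = l`, `B l = ∏ (a l - a i)`,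
`α (i, l) = (the α of (CLL) for t l) i * h(a l) / B l`, `s = ε`, `ε → 0`: near `a l` (`u = a l`, `v = ε`, `c = ε ^ (- m)`) the
limit is `(B y + h(a l)) ^ m - B ^ m ∏ (y - α (i, l))`; at the zeros of `h` (`u = 0`, `v = 1`, `c = ε⁻¹`) it is
`m h A ^ (m - 1)`, `A = ∏ (X - a l)`.  (PL) gives all `n` roots, simple. -/
def S_SHA : Prop :=
  ∀ (m e j : ℕ) (t : Fin e → ℕ) (u : ℕ), 2 ≤ m → 1 ≤ e → j < e → (∀ l, t l < m ∧ Odd (m - t l)) → u ≤ j →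
    Even (j - u) → Shp m e j (∑ l, t l + u)

/-- (SHB) `t_SHB : TQ.S_PL → S_GM → S_SHB`.  `A = ∏ (X - a l)` and `v > 0` with `2 A + v = 0` having exactly `u` real
solutions, `v` not one of the finitely many values for which some `(ζ - 1) A = v`, `ζ ^ m = 1`, `ζ ≠ 1`, has a multiple
solution; `h = ∏ (X - R b)` with `j` different nonzero `b`, `u'` real ones (conjugate pairs; `h` rational), `R → ∞`,
`s = v / h(0)` (take `h(0) > 0`: for `j` even resp. odd choose the signs of the real `b`; `u' ≤ j`, `j` odd has a real `b < 0`),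
roots `a l + ε α i` with `ε → 0` (any different `α i` with sum 0): places near the solutions of `(ζ - 1) A = v` (`u = 0`,
`v = 1`, limit `(A + v) ^ m - A ^ m` divided by nothing) and near `R b` (`u = 0`, `v = R`, `c = R ^ (- (m - 1) e)`, limit
`m v z ^ ((m - 1) e) ∏ (1 - z / b)`, `z = b ≠ 0`) -/
def S_SHB : Prop :=
  ∀ (m e j u u' : ℕ), 2 ≤ m → Even m → 1 ≤ e → j < e → u ≤ e → Even (e - u) → u' ≤ j → Even (j - u') →
    Shp m e j (u + u')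

/-- (SHC) `t_SHC : TQ.S_PL → S_GM → S_SHC`.  `A = X A₁`, `A₁ = ∏_{l=1}^{e-1} (X - l)`, `h = X h₁`, `h₁ = ∏ (X ^ 2 + i)` of degree
`j - 1` (positive), `s` large and not one of finitely many values, roots `a l + ε α (i, l)`, `ε → 0`, with
`α (i, 0) = α i` different with sum 0, an odd number of them positive, none 0, `α (i, l)` any different with sum 0.
Places: the `(m - 1) (e - 1)` solutions of `(1 - ζ) A₁ + s h₁ = 0`, `ζ ^ m = 1`, `ζ ≠ 1`, and the zeros of `h₁` (`u = 0`, `v = 1`,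
`c = 1`, limit `X ^ m ((A₁ + s h₁) ^ m - A₁ ^ m)`), not real (for `ζ = - 1` as `2 A₁ + s h₁ > 0` for large `s`), and the `m` solutions
of `(λ y) ^ m = ∏ (y - α i)`, `λ = 1 + s h₁(0) / A₁(0)` (`u = 0`, `v = ε`, `c = ε ^ (- m)`), not real for `λ` large as
`∏ (- α i) < 0` -/
def S_SHC : Prop :=
  ∀ (m e j : ℕ), 2 ≤ m → Even m → Odd e → Odd j → j < e → Shp m e j 0

/-- (SHP) `t_SHP : S_SHA → S_SHB → S_SHC → S_SHP`, arithmetic: `m` odd: (SHA) with `u = min j ρ` and even `t l`; `m` even: (SHA)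
with `u = min j (ρ - e)` and odd `t l` if `ρ ≥ e + (j mod 2)`, else (SHB) with `u' = j mod 2`, except (SHC) if `ρ = 0` and `e`, `j`
are odd -/
def S_SHP : Prop :=
  ∀ (m e j ρ : ℕ), 2 ≤ m → 1 ≤ e → j < e → ρ ≤ (m - 1) * e + j → Even ((m - 1) * e + j - ρ) → Shp m e j ρ

/-- (ST) `t_ST : TQ.S_PL → S_ST`, stability: otherwise sequences `b' → b`, `h' → h`, `σ' → σ`; then `g' → g` (the coefficients of
`g` from above, one after the other, are determined by those of `∏ (X - b i)`), so the equations converge coefficientwise and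
(PL) with `u = 0`, `v = c = 1` gives the count -/
def S_ST : Prop :=
  ∀ (m e j ρ : ℕ) (b : Fin m × Fin e → ℝ) (g r h : ℝ[X]) (σ : ℝ), 2 ≤ m → 1 ≤ e → j < e → g.Monic →
    g.natDegree = e → h.Monic → h.natDegree = j → r.degree < ((m - 1) * e : ℕ) →
    ∏ i, (X - C (b i)) = g ^ m + r → 0 < σ →
    (∃ w : Fin ((m - 1) * e + j) → ℂ, Function.Injective w ∧
      (∀ i, aeval (w i) ((g + C σ * h) ^ m - (g ^ m + r)) = 0 ∧
        aeval (w i) (derivative ((g + C σ * h) ^ m - (g ^ m + r))) ≠ 0) ∧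
        {i | (w i).im = 0}.ncard = ρ) →
    ∃ δ : ℝ, 0 < δ ∧ ∀ (b' : Fin m × Fin e → ℝ) (g' r' h' : ℝ[X]) (σ' : ℝ), g'.Monic →
      g'.natDegree = e → h'.Monic → h'.natDegree = j → r'.degree < ((m - 1) * e : ℕ) →
      ∏ i, (X - C (b' i)) = g' ^ m + r' → (∀ i, |b' i - b i| < δ) →
      (∀ i, |h'.coeff i - h.coeff i| < δ) → |σ' - σ| < δ →
      {x : ℝ | (g'.eval x + σ' * h'.eval x) ^ m = g'.eval x ^ m + r'.eval x}.ncard = ρ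

/-- (RTZ) integral roots: `root_step` (J4H19/TP/R1P.lean) over `ℤ[1/m]` for `∏ (X - a i)`, then multiply the zeros by `L` -/
def S_RTZ : Prop :=
  ∀ (m e : ℕ) (a : Fin m × Fin e → ℤ), 2 ≤ m → ∃ N₀ : ℕ, ∀ L : ℤ, L ≠ 0 → (m : ℤ) ^ N₀ ∣ L →
    ∃ g r : ℤ[X], g.Monic ∧ g.natDegree = e ∧ r.degree < ((m - 1) * e : ℕ) ∧
      ∏ i, (X - C (L * a i)) = g ^ m + r

/-- (UNQ) uniqueness of the root modulo `T` (`T ∤ m`), as `root_unique` in J4H19/TP/R1P.lean over `ZMod T` -/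
def S_UNQ : Prop :=
  ∀ (m e T : ℕ) (g r g₀ r₀ : ℤ[X]), 2 ≤ m → T.Prime → ¬ T ∣ m → g.Monic → g.natDegree = e →
    r.degree < ((m - 1) * e : ℕ) → g₀.Monic → g₀.natDegree = e → r₀.degree < ((m - 1) * e : ℕ) →
    C (T : ℤ) ∣ (g ^ m + r) - (g₀ ^ m + r₀) → C (T : ℤ) ∣ g - g₀ ∧ C (T : ℤ) ∣ r - r₀

/-- (HZ) a monic integer polynomial near `Λ ^ j h (X / Λ)` with prescribed residues (`h₁` modulo `T ^ 2`, constant term 1 modulo
`W` if `j > 0`), for all large `Λ` -/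
def S_HZ : Prop :=
  ∀ (j T W : ℕ) (h : ℝ[X]) (h₁ : ℤ[X]) (δ : ℝ), 0 < T → 0 < W → Nat.Coprime T W → h.Monic →
    h.natDegree = j → h₁.Monic → h₁.natDegree = j → 0 < δ → ∃ Λ₀ : ℝ, 0 < Λ₀ ∧ ∀ Λ : ℝ, Λ₀ < Λ →
      ∃ h' : ℤ[X], h'.Monic ∧ h'.natDegree = j ∧ C ((T : ℤ) ^ 2) ∣ h' - h₁ ∧ (W : ℤ) ∣ h'.eval 0 - 1 ∧
        ∀ i ≤ j, |(h'.coeff i : ℝ) / Λ ^ (j - i) - h.coeff i| < δ

/-- (AR) `t_AR : S_EIS → S_SHP → S_ST → S_RTZ → S_UNQ → S_HZ → S_AR`.  `T`, `ρ` from (EIS) with `B = 2 m`; the shape `b, h, σ`, its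
`δ` from (ST); a large integer `Δ` and integers `a₀ i ≡ ρ i` modulo `T` with `|a₀ i - Δ b i| ≤ T` (different, as the `ρ i` are
different modulo `T`); `W = |2 m ∏ (a₀ i - a₀ i')|`, `T ∤ W`, `L = W ^ (t (T - 1)) ≡ 1` modulo `T`, `t` large, `a i = L a₀ i`;
`g, r` from (RTZ); modulo `T` they are `g₀, r₀` (UNQ); `h` from (HZ) with `Λ = Δ L`, `h₁ = h₀` or `h₀ + T` (constant term, if
`j > 0`), `s = 1` or (if `j = 0`) `1 + T`, such that `((g + s h) ^ m - g ^ m - r) (1) ≢ 0` modulo `T ^ 2` (`b = 1`; the two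
choices differ by `± m (g + s h) ^ (m - 1) (1) T`, `g + s h ≡ X ^ e` modulo `T`); a prime `q` dividing 2 or some `a i - a i'`
divides `W` and `a i`, so `h(a i) ≡ h(0) ≡ 1`.  The real count by (ST) for `b' = a / Λ`, `g' = g (Λ X) / Λ ^ e`,
`h' = h (Λ X) / Λ ^ j`, `σ' = s / Λ ^ (e - j)`. -/
def S_AR : Prop :=
  ∀ (m e j ρ : ℕ), 2 ≤ m → j + 2 ≤ e → ρ ≤ (m - 1) * e + j → Even ((m - 1) * e + j - ρ) →
    ∃ (k : ℕ) (D : DatL m e j k) (α β : ℝ), 0 < α ∧ α < β ∧ ∀ σ : ℝ, α < σ → σ < β →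
      {x : ℝ | (aeval x D.g + σ * aeval x D.h) ^ m = aeval x D.g ^ m + aeval x D.r}.ncard = ρ

end Pool.Agent.J4H20.LV
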