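import Pool.Agent.J4H20.TP.Fin
import Pool.Agent.J4H20.LV.Stm

/-!
# Project LV: the fields
-/

set_option autoImplicit false

namespace Pool.Agent.J4H20.LV

open Polynomial NumberField nonZeroDivisors Pool.Agent.W289.CG

lemma HL_aeval {R : Type} [CommRing R] (m : ℕ) (g r h : ℤ[X]) (c M : ℤ) (x : R) :
    aeval x (HL m g r h c M) =
      (M * aeval x g + c * aeval x h) ^ m - M ^ m * (aeval x g ^ m + aeval x r) := by
  have h2 : ∀ n : ℤ, aeval x (C n : ℤ[X]) = (n : R) := by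
    intro n
    rw [aeval_C]; simp
  unfold HL
  rw [map_sub, _root_.map_pow (aeval x) (C M * g + C c * h) m, map_add,
    _root_.map_mul (aeval x) (C M) g, _root_.map_mul (aeval x) (C c) h,
    _root_.map_mul (aeval x) (C (M ^ m)) (g ^ m + r), map_add,
    _root_.map_pow (aeval x) g m, h2, h2, h2, Int.cast_pow]

theorem coreL (hNAT : S_NAT) (hIRR : S_IRR) (hDSC : S_DSC) (hEMB : TR.S_EMB) (hLOC : S_LOC)
    (hIND : S_IND) (hCH : S_CH) {m e j k : ℕ} (D : DatL m e j k) (r₁ : ℕ) (α β : ℝ) (hα : 0 < α)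
    (hαβ : α < β) (hcount : ∀ σ : ℝ, α < σ → σ < β →
      {x : ℝ | (aeval x D.g + σ * aeval x D.h) ^ m = aeval x D.g ^ m + aeval x D.r}.ncard = r₁)
    (N : ℕ) :
    ∃ (K : Type) (_ : Field K) (_ : NumberField K), Module.finrank ℚ K = (m - 1) * e + j ∧
      InfinitePlace.nrRealPlaces K = r₁ ∧ (N : ℤ) < |discr K| ∧
      ∀ R, R + Units.rank K ≤ k →
        ∃ f : Multiplicative (Fin R → ZMod m) →* ClassGroup (𝓞 K), Function.Injective f := by
  obtain ⟨c, M, q₀, hc, hM, hcop, hdiff, hhM, hTM, hTc, hq₀, hN, hqM, hqM2, hqm, h1, h2, htest,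
    hqz⟩ := hCH m e j k D α β N hα hαβ
  have hm := D.hm
  have hn : 1 ≤ (m - 1) * e + j := by
    have h3 : 0 < (m - 1) * e := Nat.mul_pos (by omega) (by have := D.hje; omega)
    omega
  have hdeg := (hNAT m e j k D c M hc.ne' hM.ne').1
  have hirr := hIRR m e j k D c M hc.ne' hM.ne' hTM hTc
  obtain ⟨K, hK1, hK2, θ, hfr, hθ, hgen⟩ := exists_field _ hirr
  rw [natDegree_map_eq_of_injective (RingHom.injective_int _), hdeg] at hfr
  have hcast : (Int.castRingHom ℚ) = algebraMap ℤ ℚ := rfl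
  have hθ' : aeval θ (HL m D.g D.r D.h c M) = 0 := by
    rw [hcast, aeval_map_algebraMap] at hθ
    exact hθ
  have hf : ∀ (R : Type) [CommRing R] (x : R),
      ∏ i, (x - (D.a i : R)) = aeval x D.g ^ m + aeval x D.r := by
    intro R _ x
    have h3 := congrArg (aeval x) D.hf
    rw [map_prod, map_add, map_pow] at h3
    rw [← h3]
    refine Finset.prod_congr rfl fun i _ => ?_
    simp
  have hqpr : Prime (q₀ : ℤ) := Nat.prime_iff_prime_int.1 hq₀
  have hqc : ¬ (q₀ : ℤ) ∣ c := by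
    intro h
    exact hqpr.not_isUnit (hcop.isUnit_of_dvd' h hqM)
  have hm0 : m ≠ 0 := by omega
  have hpt : ∀ i, θ - (D.a i : K) ≠ 0 := by
    intro i h0
    have h3 : ∏ l, (θ - (D.a l : K)) = 0 := Finset.prod_eq_zero (Finset.mem_univ i) h0
    rw [hf] at h3
    rw [HL_aeval, h3, mul_zero, sub_zero] at hθ'
    have h5 : (M : K) * aeval θ D.g + c * aeval θ D.h = 0 := (pow_eq_zero_iff hm0).1 hθ'
    have h6 : θ = ((D.a i : ℤ) : K) := sub_eq_zero.1 h0
    have h7 : ∀ G : ℤ[X], aeval θ G = ((G.eval (D.a i) : ℤ) : K) := by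
      intro G
      rw [h6, ← eq_intCast (algebraMap ℤ K), aeval_algebraMap_apply]
      simp
    rw [h7, h7] at h5
    have h8 : M * D.g.eval (D.a i) + c * D.h.eval (D.a i) = 0 := by exact_mod_cast h5
    have h10 : (q₀ : ℤ) ∣ M * D.g.eval (D.a i) := Dvd.dvd.mul_right hqM _
    have h11 : (q₀ : ℤ) ∣ c * D.h.eval (D.a i) := (dvd_add_right h10).1 (h8 ▸ dvd_zero _)
    rcases hqpr.dvd_or_dvd h11 with h12 | h12
    · exact hqc h12
    · exact hqpr.not_isUnit ((hhM i).isUnit_of_dvd' h12 hqM)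
  refine ⟨K, hK1, hK2, hfr, ?_, ?_, ?_⟩
  · rw [W240.CG.pl K _ θ hirr hθ hgen]
    have hMR : (0 : ℝ) < M := by exact_mod_cast hM
    rw [← hcount ((c : ℝ) / M) ((lt_div_iff₀ hMR).2 h1) ((div_lt_iff₀ hMR).2 h2)]
    congr 1
    ext x
    simp only [Set.mem_ofPred_eq]
    rw [hcast, aeval_map_algebraMap, HL_aeval]
    have h5 : aeval x D.g + (c : ℝ) / M * aeval x D.h = (M * aeval x D.g + c * aeval x D.h) / M := by
      field_simp
    rw [h5, div_pow, div_eq_iff (by positivity), sub_eq_zero, mul_comm ((M : ℝ) ^ m)]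
  · have h3 := hDSC m e j k D c M q₀ K θ hq₀ hcop hc.ne' hM.ne' hqM hqM2 hqm hirr hθ'
    have h4 : (q₀ : ℤ) ≤ |discr K| := Int.le_of_dvd (abs_pos.2 (discr_ne_zero K))
      ((dvd_abs _ _).2 h3)
    have h5 : (N : ℤ) < q₀ := by exact_mod_cast hN
    linarith
  · intro R hR
    refine W930.CG.cls W240.CG.grp W125.CG.uni K k m R hm hR
      (fun l => Units.mk0 ((θ - (D.a l.castSucc.castSucc : K)) / (θ - (D.a (Fin.last (k + 1)) : K)))
        (div_ne_zero (hpt _) (hpt _))) ?_ ?_ ?_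
    · intro i
      refine W64.CG.val K m _ (by omega) fun v => ?_
      exact hLOC m e j k D K θ c M hM.ne' hcop hdiff hhM hθ' hpt _ _ v
    · intro ℓ hℓ hℓm
      intro E y he i
      obtain ⟨q, x, hT⟩ := htest i
      have : Fact q.Prime := ⟨hT.prime⟩
      have hφ := hEMB K θ _ ((m - 1) * e + j) q x hn hdeg hfr hgen hθ' hT.root hT.simple
      refine hIND m e j k D K θ c M q i x hT hφ hpt ℓ hℓ hℓm E y ?_
      rcases he with he | he
      · left
        have := congrArg (fun u : Kˣ => (u : K)) he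
        simpa using this
      · right
        have := congrArg (fun u : Kˣ => (u : K)) he
        simpa using this
    · intro ℓ hℓ hℓm
      obtain ⟨q, x, hq, hq4, hr, hs⟩ := hqz
      have : Fact q.Prime := ⟨hq⟩
      obtain ⟨φ, -, -, -⟩ := hEMB K θ _ ((m - 1) * e + j) q x hn hdeg hfr hgen hθ' hr hs
      obtain ⟨t, ht⟩ := hq4
      refine ⟨fun hℓ2 => ?_, fun _ => ?_⟩
      · rintro ⟨ζ, hζ⟩
        obtain ⟨w, hw⟩ := hℓm
        have h5 : q + 1 = ℓ * (4 * w * t) := by rw [ht, hw]; ring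
        have h6 := W349.CG.mu q ℓ (by
          intro h
          have h7 := (Nat.prime_dvd_prime_iff_eq hq hℓ).1 h
          rw [h7] at h5
          have h8 : ℓ ∣ 1 := (Nat.dvd_add_right (dvd_refl ℓ)).1 ⟨_, h5⟩
          exact hℓ.one_lt.ne' (Nat.dvd_one.1 h8)) ⟨φ ζ, hζ.map_of_injective φ.injective⟩
        have h7 : ℓ ∣ (q + 1) - (q - 1) := Nat.dvd_sub ⟨_, h5⟩ h6
        have h8 : (q + 1) - (q - 1) = 2 := by have := hq.two_le; omega
        rw [h8] at h7
        exact hℓ2 ((Nat.prime_dvd_prime_iff_eq hℓ Nat.prime_two).1 h7)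
      · rintro ⟨ζ, hζ⟩
        have h5 : q + 1 = 4 * (m * t) := by rw [ht]; ring
        have h6 := W349.CG.mu q 4 (by
          intro h
          have h6 : q ∣ 2 := hq.dvd_of_dvd_pow (show q ∣ 2 ^ 2 from h)
          have h7 := (Nat.prime_dvd_prime_iff_eq hq Nat.prime_two).1 h6
          omega) ⟨φ ζ, hζ.map_of_injective φ.injective⟩
        have := hq.two_le
        omega

end Pool.Agent.J4H20.LV
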