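import Mathlib

/-!
# Project LV: monic rational polynomials with prescribed numbers of real and complex zeros
-/

set_option autoImplicit false

namespace Pool.Agent.J4H20.LV

open Polynomial

/-- the zeros -/
noncomputable def zh (e u v : ℕ) : Fin u ⊕ Fin v × Bool → ℂ :=
  Sum.elim (fun i => ((e : ℂ) + (i : ℕ))) (fun p => (if p.2 then 1 else -1) * (((p.1 : ℕ) : ℂ) + 1) * Complex.I)

noncomputable def hq (e u v : ℕ) : ℚ[X] :=
  (∏ i : Fin u, (X - C ((e : ℚ) + (i : ℕ)))) * ∏ i : Fin v, (X ^ 2 + C ((((i : ℕ) : ℚ) + 1) ^ 2))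

lemma zh_inj (e u v : ℕ) : Function.Injective (zh e u v) := by
  have hre : ∀ (i : Fin u), (zh e u v (Sum.inl i)).re = (e : ℝ) + (i : ℕ) ∧
      (zh e u v (Sum.inl i)).im = 0 := by
    intro i; simp [zh]
  have him : ∀ (p : Fin v × Bool), (zh e u v (Sum.inr p)).im =
      (if p.2 then 1 else -1) * (((p.1 : ℕ) : ℝ) + 1) := by
    rintro ⟨i, b⟩
    cases b <;> simp [zh]
  rintro (i | ⟨i, b⟩) (i' | ⟨i', b'⟩) h
  · have h1 := congrArg Complex.re h
    rw [(hre i).1, (hre i').1] at h1
    have h2 : ((i : ℕ) : ℝ) = (i' : ℕ) := by linarith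
    rw [Nat.cast_inj] at h2
    rw [Fin.ext h2]
  · exfalso
    have h1 := congrArg Complex.im h
    rw [(hre i).2, him] at h1
    have h2 : (0 : ℝ) < ((i' : ℕ) : ℝ) + 1 := by positivity
    cases b' <;> simp at h1 <;> linarith
  · exfalso
    have h1 := congrArg Complex.im h
    rw [(hre i').2, him] at h1
    have h2 : (0 : ℝ) < ((i : ℕ) : ℝ) + 1 := by positivity
    cases b <;> simp at h1 <;> linarith
  · have h1 := congrArg Complex.im h
    rw [him, him] at h1
    have h2 : (0 : ℝ) < ((i : ℕ) : ℝ) + 1 := by positivity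
    have h3 : (0 : ℝ) < ((i' : ℕ) : ℝ) + 1 := by positivity
    cases b <;> cases b' <;> simp at h1
    · rw [Fin.ext h1]
    · linarith
    · linarith
    · rw [Fin.ext h1]

lemma hq_map (e u v : ℕ) : (hq e u v).map (algebraMap ℚ ℂ) = ∏ i, (X - C (zh e u v i)) := by
  rw [hq, Polynomial.map_mul, Polynomial.map_prod, Polynomial.map_prod, Fintype.prod_sum_type,
    Fintype.prod_prod_type]
  congr 1
  · refine Finset.prod_congr rfl fun i _ => ?_
    simp [zh]
  · refine Finset.prod_congr rfl fun i _ => ?_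
    rw [Fintype.prod_bool]
    simp only [zh, Sum.elim_inr, if_true, Bool.false_eq_true, if_false]
    rw [Polynomial.map_add, Polynomial.map_pow, map_X, map_C]
    have h1 : (algebraMap ℚ ℂ) ((((i : ℕ) : ℚ) + 1) ^ 2) = -((((i : ℕ) : ℂ) + 1) * Complex.I) ^ 2 := by
      rw [mul_pow, Complex.I_sq]
      simp
    rw [h1, C_neg, C_pow, one_mul, neg_one_mul, neg_mul, C_neg]
    ring

lemma hq_monic (e u v : ℕ) : (hq e u v).Monic := by
  have h1 : ((hq e u v).map (algebraMap ℚ ℂ)).Monic := by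
    rw [hq_map]; exact monic_prod_of_monic _ _ fun _ _ => monic_X_sub_C _
  exact (monic_map_iff.1 h1)

lemma hq_deg (e u v : ℕ) : (hq e u v).natDegree = u + 2 * v := by
  have h1 : ((hq e u v).map (algebraMap ℚ ℂ)).natDegree = u + 2 * v := by
    rw [hq_map, natDegree_prod_of_monic _ _ fun _ _ => monic_X_sub_C _]
    simp only [natDegree_X_sub_C]
    simp [mul_comm]
  rwa [natDegree_map] at h1

lemma hq_root (e u v : ℕ) (i : Fin u ⊕ Fin v × Bool) :
    aeval (zh e u v i) (hq e u v) = 0 ∧ aeval (zh e u v i) (derivative (hq e u v)) ≠ 0 := by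
  have hsep : (∏ i, (X - C (zh e u v i))).Separable := by
    rw [separable_prod_X_sub_C_iff]
    exact zh_inj e u v
  have h1 : aeval (zh e u v i) ((hq e u v).map (algebraMap ℚ ℂ)) = 0 := by
    rw [hq_map, map_prod]
    refine Finset.prod_eq_zero (Finset.mem_univ i) ?_
    simp
  rw [← hq_map] at hsep
  have h2 := hsep.aeval_derivative_ne_zero h1
  rw [aeval_map_algebraMap] at h1
  rw [derivative_map, aeval_map_algebraMap] at h2
  exact ⟨h1, h2⟩

lemma hq_eval (e u v l : ℕ) (hl : l < e) : (hq e u v).eval (l : ℚ) ≠ 0 := by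
  rw [hq, eval_mul, eval_prod, eval_prod]
  refine mul_ne_zero (Finset.prod_ne_zero_iff.2 fun i _ => ?_) (Finset.prod_ne_zero_iff.2 fun i _ => ?_)
  · simp only [eval_sub, eval_X, eval_C]
    have h1 : ((l : ℕ) : ℚ) < e := by exact_mod_cast hl
    have h2 : (0 : ℚ) ≤ ((i : ℕ) : ℚ) := by positivity
    intro h
    linarith
  · simp only [eval_add, eval_pow, eval_X, eval_C]
    positivity

lemma hq_im (e u v : ℕ) : {i | (zh e u v i).im = 0}.ncard = u := by
  have h1 : {i | (zh e u v i).im = 0} = Set.range (Sum.inl : Fin u → Fin u ⊕ Fin v × Bool) := by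
    ext i
    simp only [Set.mem_ofPred_eq]
    rcases i with i | ⟨i, b⟩
    · simp [zh]
    · have h2 : (0 : ℝ) < ((i : ℕ) : ℝ) + 1 := by positivity
      cases b <;> simp [zh] <;> intro h <;> linarith
  rw [h1, Set.ncard_range_of_injective Sum.inl_injective]
  simp

/-- monic rational polynomials with `u` real zeros, all zeros simple, not zero at `0, ..., e - 1` -/
theorem exists_h (e j u : ℕ) (hu : u ≤ j) (hev : Even (j - u)) :
    ∃ (h : ℚ[X]) (z : Fin j → ℂ), h.Monic ∧ h.natDegree = j ∧ Function.Injective z ∧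
      (∀ i, aeval (z i) h = 0 ∧ aeval (z i) (derivative h) ≠ 0) ∧ {i | (z i).im = 0}.ncard = u ∧
      ∀ l : ℕ, l < e → h.eval (l : ℚ) ≠ 0 := by
  obtain ⟨v, hv⟩ := hev
  have hj : j = u + 2 * v := by omega
  have hcard : Fintype.card (Fin u ⊕ Fin v × Bool) = Fintype.card (Fin j) := by
    simp [hj, mul_comm]
  obtain ⟨E⟩ : Nonempty (Fin j ≃ Fin u ⊕ Fin v × Bool) := ⟨(Fintype.equivOfCardEq hcard).symm⟩
  refine ⟨hq e u v, fun i => zh e u v (E i), hq_monic e u v, by rw [hq_deg, hj],
    (zh_inj e u v).comp E.injective, fun i => hq_root e u v (E i), ?_, fun l hl => hq_eval e u v l hl⟩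
  refine Eq.trans ?_ (hq_im e u v)
  have h1 : {i | (zh e u v i).im = 0} = E '' {i | (zh e u v (E i)).im = 0} := by
    ext i
    simp only [Set.mem_ofPred_eq, Set.mem_image]
    constructor
    · intro h
      exact ⟨E.symm i, by simpa using h, by simp⟩
    · rintro ⟨i', h, rfl⟩
      exact h
  rw [h1, Set.ncard_image_of_injective _ E.injective]

end Pool.Agent.J4H20.LV
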