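import Pool.Agent.J4H20.LV.SHAa
import Pool.Agent.J4H20.LV.Hpol
import Pool.Agent.J4H20.TQ.R3Q

/-!
# Project LV: (SHA)
-/

set_option autoImplicit false

namespace Pool.Agent.J4H20.LV

open Polynomial Filter Topology Pool.Agent.J4H21.TP Pool.Agent.J4H20.TQ

/-- degree and leading coefficient -/
lemma deg_auxL (m e j : ℕ) (hm : 1 ≤ m) (G R H : ℝ[X]) (s : ℝ) (hs : s ≠ 0) (hG : G.Monic)
    (hGn : G.natDegree = e) (hH : H.Monic) (hHn : H.natDegree = j) (hje : j < e)
    (hR : R.degree < ((m - 1) * e : ℕ)) :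
    (G + C s * H) ^ m - (G ^ m + R) ≠ 0 ∧
      ((G + C s * H) ^ m - (G ^ m + R)).natDegree ≤ (m - 1) * e + j := by
  have hlt : (C s * H).degree < G.degree := by
    rw [degree_C_mul hs, degree_eq_natDegree hG.ne_zero, degree_eq_natDegree hH.ne_zero, hGn, hHn]
    exact_mod_cast hje
  have hF : (G + C s * H).Monic := hG.add_of_left hlt
  have hFn : (G + C s * H).natDegree = e := by
    rw [natDegree_add_eq_left_of_degree_lt hlt, hGn]
  set S : ℝ[X] := ∑ i ∈ Finset.range m, (G + C s * H) ^ i * G ^ (m - 1 - i) with hS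
  have hT : ∀ i ∈ Finset.range m, ((G + C s * H) ^ i * G ^ (m - 1 - i)).Monic ∧
      ((G + C s * H) ^ i * G ^ (m - 1 - i)).natDegree = (m - 1) * e := by
    intro i hi
    rw [Finset.mem_range] at hi
    refine ⟨(hF.pow i).mul (hG.pow _), ?_⟩
    rw [(hF.pow i).natDegree_mul (hG.pow _), hF.natDegree_pow, hG.natDegree_pow, hFn, hGn,
      ← add_mul]
    congr 1
    omega
  have hSc : S.coeff ((m - 1) * e) = m := by
    rw [hS, finsetSum_coeff, Finset.sum_congr rfl (g := fun _ => (1 : ℝ))]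
    · simp
    · intro i hi
      obtain ⟨h1, h2⟩ := hT i hi
      rw [← h2]
      exact h1.coeff_natDegree
  have hSn : S.natDegree ≤ (m - 1) * e :=
    natDegree_sum_le_of_forall_le _ _ fun i hi => (hT i hi).2.le
  have h4 : (G + C s * H) ^ m - (G ^ m + R) = C s * H * S - R := by
    have h5 := (Commute.all (G + C s * H) G).mul_geom_sum₂ m
    rw [add_sub_cancel_left] at h5
    linear_combination -h5
  have hRn : R.natDegree ≤ (m - 1) * e := natDegree_le_of_degree_le hR.le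
  have hRc : R.coeff ((m - 1) * e + j) = 0 :=
    coeff_eq_zero_of_degree_lt (hR.trans_le (by exact_mod_cast Nat.le_add_right _ _))
  have hc : ((G + C s * H) ^ m - (G ^ m + R)).coeff ((m - 1) * e + j) = s * m := by
    rw [h4, coeff_sub, hRc, sub_zero, mul_assoc, coeff_C_mul, mul_comm H S]
    rw [coeff_mul_add_eq_of_natDegree_le hSn hHn.le, hSc]
    have h6 : H.coeff j = 1 := by
      rw [← hHn]; exact hH.coeff_natDegree
    rw [h6, mul_one]
  have hm0 : (m : ℝ) ≠ 0 := by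
    have : 0 < m := hm
    exact_mod_cast this.ne'
  constructor
  · intro h0
    rw [h0, coeff_zero] at hc
    exact mul_ne_zero hs hm0 hc.symm
  · rw [h4]
    refine (natDegree_sub_le _ _).trans (max_le ?_ (hRn.trans (Nat.le_add_right _ _)))
    rw [mul_assoc]
    refine (natDegree_C_mul_le _ _).trans ?_
    refine natDegree_mul_le.trans ?_
    rw [hHn]
    omega

/-- scaling of the cluster equation -/
lemma scale_auxL (m : ℕ) (B h κ : ℝ) (hκ : B * κ = h) (α α0 : Fin m → ℝ)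
    (hα : ∀ i, α i = α0 i * κ) :
    ((C B * X + C h) ^ m - C B ^ m * ∏ i, (X - C (α i)) : ℝ[X]).comp (C κ * X) =
      C (h ^ m) * ((X + 1) ^ m - ∏ i, (X - C (α0 i)) : ℝ[X]) := by
  rw [sub_comp, mul_comp, pow_comp, pow_comp, add_comp, mul_comp, X_comp, C_comp, C_comp, prod_comp,
    mul_sub]
  congr 1
  · rw [← mul_assoc, ← C_mul, hκ, C_pow, ← mul_pow]
    congr 1
    ring
  · have h1 : ∏ i, ((X - C (α i) : ℝ[X]).comp (C κ * X)) = ∏ i, (C κ * (X - C (α0 i))) := by
      refine Finset.prod_congr rfl fun i _ => ?_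
      rw [sub_comp, X_comp, C_comp, hα i, C_mul]
      ring
    rw [h1, Finset.prod_mul_distrib, Finset.prod_const, Finset.card_univ, Fintype.card_fin,
      ← mul_assoc, ← mul_pow, ← C_mul, hκ, C_pow]

theorem t_SHA : S_PL → S_CLL → S_GM → S_SHA := by
  intro hPL hCL hG m e j t u hm he hje htl hu hju
  choose α0 hα0 hα0s z0 hz0 hz0r hz0c using fun l => hCL m (t l) (htl l).1 (htl l).2
  obtain ⟨h, zh, hh, hhn, hzh, hzhr, hzhc, hhe⟩ := exists_h e j u hu hju
  have hm0 : m ≠ 0 := by omega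
  set a : Fin e → ℚ := fun l => ((l : ℕ) : ℚ) with ha
  have hainj : Function.Injective a := by
    intro i i' hij
    simp only [ha, Nat.cast_inj] at hij
    exact Fin.ext hij
  set B : Fin e → ℚ := fun l => ∏ i ∈ Finset.univ.erase l, (a l - a i) with hB
  have hB0 : ∀ l, B l ≠ 0 := by
    intro l
    refine Finset.prod_ne_zero_iff.2 fun i hi => ?_
    rw [Finset.mem_erase] at hi
    exact sub_ne_zero.2 fun h => hi.1 (hainj h).symm
  have hha : ∀ l, h.eval (a l) ≠ 0 := fun l => hhe l l.2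
  set κ : Fin e → ℚ := fun l => h.eval (a l) / B l with hκ
  have hκ0 : ∀ l, κ l ≠ 0 := fun l => div_ne_zero (hha l) (hB0 l)
  set α : Fin m × Fin e → ℚ := fun i => α0 i.2 i.1 * κ i.2 with hα
  have hαs : ∀ l, ∑ i, α (i, l) = 0 := by
    intro l
    simp only [hα]
    rw [← Finset.sum_mul, hα0s l, zero_mul]
  obtain ⟨U, r, hGr⟩ := hG m e a α hm hαs
  set g : ℚ → ℚ[X] := fun ε => ∏ l, (X - C (a l)) +
    C (ε ^ 2) * ∑ l : Fin e, C ((U l).eval ε) * X ^ (l : ℕ) with hg
  set R : ℚ → ℚ[X] := fun ε => ∑ l : Fin ((m - 1) * e), C ((r l).eval ε) * X ^ (l : ℕ) with hRdef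
  have hA : (∏ l, (X - C (a l)) : ℚ[X]).Monic := monic_prod_of_monic _ _ fun _ _ => monic_X_sub_C _
  have hAn : (∏ l, (X - C (a l)) : ℚ[X]).natDegree = e := by
    rw [natDegree_prod_of_monic _ _ fun _ _ => monic_X_sub_C _]
    simp
  have hlow : ∀ (n : ℕ) (c : Fin n → ℚ), (∑ l : Fin n, C (c l) * X ^ (l : ℕ) : ℚ[X]).degree < n := by
    intro n c
    exact degree_sum_fin_lt c
  have hgmon : ∀ ε, (g ε).Monic ∧ (g ε).natDegree = e := by
    intro ε
    have h1 : (C (ε ^ 2) * ∑ l : Fin e, C ((U l).eval ε) * X ^ (l : ℕ) : ℚ[X]).degree <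
        (∏ l, (X - C (a l)) : ℚ[X]).degree := by
      rw [degree_eq_natDegree hA.ne_zero, hAn]
      rw [← smul_eq_C_mul]
      exact (degree_smul_le _ _).trans_lt (hlow e _)
    refine ⟨hA.add_of_left h1, ?_⟩
    rw [hg]
    simp only
    rw [natDegree_add_eq_left_of_degree_lt h1, hAn]
  have hRdeg : ∀ ε, (R ε).degree < ((m - 1) * e : ℕ) := fun ε => hlow _ _
  -- the small parameter
  set ε : ℕ → ℚ := fun k => 1 / ((k : ℚ) + 1) with hε
  have hε0 : ∀ k, 0 < ε k := fun k => by simp only [hε]; positivity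
  have hεR : ∀ k, (0 : ℝ) < (ε k : ℝ) := fun k => by exact_mod_cast hε0 k
  have hεlim : Tendsto (fun k => (ε k : ℝ)) atTop (𝓝 0) := by
    have h1 := tendsto_one_div_add_atTop_nhds_zero_nat (𝕜 := ℝ)
    refine h1.congr fun k => ?_
    simp [hε]
  set b : ℚ → Fin m × Fin e → ℚ := fun ε i => a i.2 + ε * α i with hb
  have hbinj : ∀ᶠ k in atTop, Function.Injective (b (ε k)) := by
    have h1 : ∀ᶠ k in atTop, ∀ i i' : Fin m × Fin e, i ≠ i' → b (ε k) i ≠ b (ε k) i' := by
      rw [eventually_all]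
      intro i
      rw [eventually_all]
      intro i'
      by_cases hij : i = i'
      · exact Eventually.of_forall fun k h => absurd hij h
      by_cases h2 : i.2 = i'.2
      · refine Eventually.of_forall fun k _ h3 => hij ?_
        simp only [hb] at h3
        rw [h2] at h3
        have h4 := mul_left_cancel₀ (hε0 k).ne' (add_left_cancel h3)
        simp only [hα] at h4
        rw [h2] at h4
        have h5 := mul_right_cancel₀ (hκ0 _) h4
        exact Prod.ext (hα0 _ h5) h2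
      · have h3 : Tendsto (fun k => ((a i.2 : ℚ) : ℝ) + ε k * α i - (a i'.2 + ε k * α i')) atTop
            (𝓝 ((a i.2 : ℝ) + 0 * α i - (a i'.2 + 0 * α i'))) :=
          (tendsto_const_nhds.add (hεlim.mul_const _)).sub
            (tendsto_const_nhds.add (hεlim.mul_const _))
        have h4 : ((a i.2 : ℚ) : ℝ) + 0 * α i - (a i'.2 + 0 * α i') ≠ 0 := by
          rw [zero_mul, zero_mul, add_zero, add_zero]
          exact sub_ne_zero.2 fun h => h2 (hainj (by exact_mod_cast h))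
        filter_upwards [h3.eventually_ne h4] with k hk _ h5
        apply hk
        simp only [hb] at h5
        rw [sub_eq_zero]
        exact_mod_cast h5
    filter_upwards [h1] with k hk i i' hij
    by_contra hne
    exact hk i i' hne hij
  set hR : ℝ[X] := h.map (algebraMap ℚ ℝ) with hhR
  have hhev : ∀ l, hR.eval ((a l : ℚ) : ℝ) = ((h.eval (a l) : ℚ) : ℝ) := by
    intro l
    rw [hhR, ← eq_ratCast (algebraMap ℚ ℝ) (a l), eval_map_apply, eq_ratCast]
  set P : ℕ → ℝ[X] := fun k =>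
    (∏ l, (X - C ((a l : ℚ) : ℝ)) + C ((ε k : ℝ) ^ 2) * (∑ l : Fin e,
      C (((U l).eval (ε k) : ℚ) : ℝ) * X ^ (l : ℕ)) + C (ε k : ℝ) * hR) ^ m -
        ∏ i : Fin m × Fin e, (X - C (((a i.2 : ℚ) : ℝ) + (ε k : ℝ) * ((α i : ℚ) : ℝ))) with hP
  have hgR : ∀ k, (g (ε k)).map (algebraMap ℚ ℝ) = ∏ l, (X - C ((a l : ℚ) : ℝ)) +
      C ((ε k : ℝ) ^ 2) * ∑ l : Fin e, C (((U l).eval (ε k) : ℚ) : ℝ) * X ^ (l : ℕ) := by
    intro k
    simp only [hg]
    simp [Polynomial.map_prod, Polynomial.map_sum]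
  have hfR : ∀ k, ((g (ε k)) ^ m + R (ε k)).map (algebraMap ℚ ℝ) =
      ∏ i : Fin m × Fin e, (X - C (((a i.2 : ℚ) : ℝ) + (ε k : ℝ) * ((α i : ℚ) : ℝ))) := by
    intro k
    rw [← hGr (ε k), Polynomial.map_prod]
    refine Finset.prod_congr rfl fun i _ => ?_
    simp
  have hPR : ∀ k, P k = ((g (ε k)).map (algebraMap ℚ ℝ) + C (ε k : ℝ) * hR) ^ m -
      ((g (ε k)) ^ m + R (ε k)).map (algebraMap ℚ ℝ) := by
    intro k
    simp only [hP]
    rw [hfR k, hgR k]
  have hBC : ∀ l, ((B l : ℚ) : ℂ) ≠ 0 := fun l => by exact_mod_cast hB0 l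
  have hκR : ∀ l, ((κ l : ℚ) : ℝ) ≠ 0 := fun l => by exact_mod_cast hκ0 l
  have hκC : ∀ l, (((κ l : ℚ) : ℝ) : ℂ) ≠ 0 := fun l => by exact_mod_cast hκR l
  have hhR0 : ∀ l, ((h.eval (a l) : ℚ) : ℝ) ≠ 0 := fun l => by exact_mod_cast hha l
  set QA : Fin e → ℝ[X] := fun l => (C ((B l : ℚ) : ℝ) * X + C (hR.eval ((a l : ℚ) : ℝ))) ^ m -
    C ((B l : ℚ) : ℝ) ^ m * ∏ i, (X - C ((α (i, l) : ℚ) : ℝ)) with hQA
  set QH : ℝ[X] := C (m : ℝ) * hR * (∏ l, (X - C ((a l : ℚ) : ℝ))) ^ (m - 1) with hQH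
  have hQAs : ∀ l, (QA l).comp (C ((κ l : ℚ) : ℝ) * X) = C (((h.eval (a l) : ℚ) : ℝ) ^ m) *
      ((X + 1) ^ m - ∏ i, (X - C (α0 l i : ℝ)) : ℝ[X]) := by
    intro l
    simp only [hQA]
    rw [hhev l]
    refine scale_auxL m _ _ _ ?_ _ (fun i => (α0 l i : ℝ)) fun i => ?_
    · simp only [hκ]
      rw [← Rat.cast_mul, mul_div_cancel₀ _ (hB0 l)]
    · simp only [hα]
      push_cast
      rfl
  have hκz : ∀ l (x : ℂ), aeval x (C ((κ l : ℚ) : ℝ) * X : ℝ[X]) = (((κ l : ℚ) : ℝ) : ℂ) * x := by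
    intro l x
    rw [_root_.map_mul, aeval_X, aeval_C]
    rfl
  have key := hPL (Fin e × Fin (m - 1) ⊕ Fin j) P
    (Sum.elim (fun x _ => ((a x.1 : ℚ) : ℝ)) (fun _ _ => 0))
    (Sum.elim (fun _ k => (ε k : ℝ)) (fun _ _ => 1))
    (Sum.elim (fun _ k => ((ε k : ℝ) ^ m)⁻¹) (fun _ k => (ε k : ℝ)⁻¹))
    (Sum.elim (fun x => QA x.1) (fun _ => QH))
    (Sum.elim (fun x => (((κ x.1 : ℚ) : ℝ) : ℂ) * z0 x.1 x.2) zh) ?_ ?_ ?_ ?_ ?_
  · obtain ⟨k, ⟨⟨w, hw, hwr⟩, -⟩, hk2⟩ := (key.and hbinj).exists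
    have hcard : Fintype.card (Fin ((m - 1) * e + j)) =
        Fintype.card (Fin e × Fin (m - 1) ⊕ Fin j) := by
      simp [mul_comm]
    obtain ⟨Eq⟩ : Nonempty (Fin ((m - 1) * e + j) ≃ (Fin e × Fin (m - 1) ⊕ Fin j)) :=
      ⟨Fintype.equivOfCardEq hcard⟩
    refine ⟨b (ε k), g (ε k), R (ε k), h, (ε k : ℝ), hk2, (hgmon _).1, (hgmon _).2, hh, hhn,
      hRdeg _, hGr _, hεR k, fun i => w (Eq i), hw.comp Eq.injective, fun i => ?_, ?_⟩
    · rw [← hhR, ← hPR k]
      exact ⟨(hwr (Eq i)).1, (hwr (Eq i)).2.1⟩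
    · classical
      have h1 : {i | (w (Eq i)).im = 0}.ncard = {i | (w i).im = 0}.ncard := by
        have h2 : {i | (w i).im = 0} = Eq '' {i | (w (Eq i)).im = 0} := by
          ext i
          simp only [Set.mem_ofPred_eq, Set.mem_image]
          constructor
          · intro h
            exact ⟨Eq.symm i, by simpa using h, by simp⟩
          · rintro ⟨i', h, rfl⟩
            exact h
        rw [h2, Set.ncard_image_of_injective _ Eq.injective]
      have h3 : ∀ l, (Finset.univ.filter fun i => (z0 l i).im = 0).card = t l := by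
        intro l
        rw [← hz0c l, ← Set.ncard_coe_finset]
        congr 1
        ext i
        simp
      have h4 : (Finset.univ.filter fun i => (zh i).im = 0).card = u := by
        rw [← hzhc, ← Set.ncard_coe_finset]
        congr 1
        ext i
        simp
      have h5 : {i | (w i).im = 0} = ((Finset.univ.filter fun i => (Sum.elim
          (fun x : Fin e × Fin (m - 1) => (((κ x.1 : ℚ) : ℝ) : ℂ) * z0 x.1 x.2) zh i).im = 0 :
            Finset _) : Set (Fin e × Fin (m - 1) ⊕ Fin j)) := by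
        ext i
        simp only [Set.mem_ofPred_eq, Finset.coe_filter, Finset.mem_univ, true_and]
        exact (hwr i).2.2
      rw [h1, h5, Set.ncard_coe_finset, Finset.card_filter, Fintype.sum_sum_type,
        Fintype.sum_prod_type]
      congr 1
      · refine Finset.sum_congr rfl fun l _ => ?_
        rw [← h3 l, Finset.card_filter]
        refine Finset.sum_congr rfl fun i _ => ?_
        have h6 : ((((κ l : ℚ) : ℝ) : ℂ) * z0 l i).im = ((κ l : ℚ) : ℝ) * (z0 l i).im :=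
          Complex.im_ofReal_mul _ _
        have h7 : ((((κ l : ℚ) : ℝ) : ℂ) * z0 l i).im = 0 ↔ (z0 l i).im = 0 := by
          rw [h6, mul_eq_zero]
          simp only [hκR l, false_or]
        exact if_congr h7 rfl rfl
      · rw [← h4, Finset.card_filter]
        exact Finset.sum_congr rfl fun i _ => if_congr Iff.rfl rfl rfl
  · intro k
    rw [hPR k]
    have h1 := deg_auxL m e j (by omega) ((g (ε k)).map (algebraMap ℚ ℝ))
      ((R (ε k)).map (algebraMap ℚ ℝ)) hR (ε k) (hεR k).ne' ((hgmon _).1.map _)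
      (by rw [(hgmon _).1.natDegree_map, (hgmon _).2]) (hh.map _)
      (by rw [hhR, hh.natDegree_map, hhn]) hje ((degree_map_le).trans_lt (hRdeg _))
    have h2 : ((g (ε k)) ^ m + R (ε k)).map (algebraMap ℚ ℝ) =
        ((g (ε k)).map (algebraMap ℚ ℝ)) ^ m + (R (ε k)).map (algebraMap ℚ ℝ) :=
      (Polynomial.map_add _).trans (congrArg (· + (R (ε k)).map (algebraMap ℚ ℝ))
        (Polynomial.map_pow _ _))
    rw [h2]
    refine ⟨h1.1, ?_⟩
    rw [Fintype.card_sum, Fintype.card_prod, Fintype.card_fin, Fintype.card_fin, Fintype.card_fin,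
      mul_comm e]
    exact h1.2
  · rintro (x | x) k
    · exact (hεR k).ne'
    · exact one_ne_zero
  · rintro (x | x) d
    · simp only [Sum.elim_inl]
      exact limA (fun l => ((a l : ℚ) : ℝ)) (fun i => ((α i : ℚ) : ℝ)) x.1 (fun k => (ε k : ℝ))
        (fun k => (hεR k).ne') hεlim (fun l k => (((U l).eval (ε k) : ℚ) : ℝ))
        (fun l => ⟨_, pol_lim (U l) ε hεlim⟩) hR ((B x.1 : ℚ) : ℝ)
        (by simp only [hB]; push_cast; rfl) d
    · simp only [Sum.elim_inr]
      have h1 := limH hm0 (fun l => ((a l : ℚ) : ℝ)) (fun i => ((α i : ℚ) : ℝ))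
        (fun l => by exact_mod_cast hαs l) (fun k => (ε k : ℝ)) (fun k => (hεR k).ne') hεlim
        (fun k => ∑ l : Fin e, C (((U l).eval (ε k) : ℚ) : ℝ) * X ^ (l : ℕ))
        ⟨_, CT.sum Finset.univ (Q := fun (l : Fin e) k =>
            C (((U l).eval (ε k) : ℚ) : ℝ) * X ^ (l : ℕ)) (fun l _ =>
              (CT.cc (pol_lim (U l) ε hεlim)).mul (CT.const _))⟩ hR d
      refine h1.congr fun k => ?_
      rw [C_0, C_1, zero_add, one_mul, comp_X]
  · rintro (x | x)
    · simp only [Sum.elim_inl]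
      obtain ⟨h1, h2⟩ := hz0r x.1 x.2
      have h3 := hQAs x.1
      have h4 : aeval (z0 x.1 x.2) ((QA x.1).comp (C ((κ x.1 : ℚ) : ℝ) * X)) = 0 := by
        rw [h3, _root_.map_mul, h1, mul_zero]
      have h5 : aeval (z0 x.1 x.2) (derivative ((QA x.1).comp (C ((κ x.1 : ℚ) : ℝ) * X))) ≠ 0 := by
        rw [h3, derivative_C_mul, _root_.map_mul]
        refine mul_ne_zero ?_ h2
        rw [aeval_C]
        have h6 : ((h.eval (a x.1) : ℚ) : ℝ) ^ m ≠ 0 := pow_ne_zero _ (hhR0 x.1)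
        simpa using h6
      rw [aeval_comp, hκz] at h4
      rw [derivative_comp, _root_.map_mul, aeval_comp, hκz] at h5
      exact ⟨h4, (mul_ne_zero_iff.1 h5).2⟩
    · simp only [Sum.elim_inr]
      obtain ⟨h1, h2⟩ := hzhr x
      have h3 : aeval (zh x) hR = 0 := by
        rw [hhR, aeval_map_algebraMap]; exact h1
      have h4 : aeval (zh x) (derivative hR) ≠ 0 := by
        rw [hhR, derivative_map, aeval_map_algebraMap]; exact h2
      have h5 : aeval (zh x) (∏ l, (X - C ((a l : ℚ) : ℝ)) : ℝ[X]) ≠ 0 := by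
        rw [map_prod]
        refine Finset.prod_ne_zero_iff.2 fun l _ h6 => ?_
        rw [map_sub, aeval_X, aeval_C, sub_eq_zero] at h6
        have h7 : zh x = algebraMap ℚ ℂ (a l) := by
          rw [h6]; simp
        rw [h7, aeval_algebraMap_apply_eq_algebraMap_eval] at h1
        have h8 : h.eval (a l) = 0 := by
          have := (map_eq_zero_iff _ (algebraMap ℚ ℂ).injective).1 h1
          exact this
        exact hha l h8
      constructor
      · rw [hQH, _root_.map_mul, _root_.map_mul, h3, mul_zero, zero_mul]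
      · rw [hQH, derivative_mul, derivative_C_mul, map_add, _root_.map_mul, _root_.map_mul,
          _root_.map_mul, _root_.map_mul, h3, mul_zero, zero_mul, add_zero, map_pow, aeval_C]
        refine mul_ne_zero (mul_ne_zero ?_ h4) (pow_ne_zero _ h5)
        simpa using hm0
  · have hεC : Tendsto (fun k => ((ε k : ℝ) : ℂ)) atTop (𝓝 0) := by
      have h0 := (Complex.continuous_ofReal.tendsto 0).comp hεlim
      rw [Complex.ofReal_zero] at h0
      exact h0
    have hzhne : ∀ x l, zh x ≠ (((a l : ℚ) : ℝ) : ℂ) := by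
      intro x l h6
      have h7 : zh x = algebraMap ℚ ℂ (a l) := by
        rw [h6]; simp
      have h1 := (hzhr x).1
      rw [h7, aeval_algebraMap_apply_eq_algebraMap_eval] at h1
      exact hha l ((map_eq_zero_iff _ (algebraMap ℚ ℂ).injective).1 h1)
    have hmix : ∀ (x : Fin e × Fin (m - 1)) (y : Fin j) (ζ ξ : ℕ → ℂ) (c : ℂ),
        Tendsto ζ atTop (𝓝 c) → Tendsto ξ atTop (𝓝 (zh y)) →
        ∀ᶠ k : ℕ in atTop, (((a x.1 : ℚ) : ℝ) : ℂ) + ((ε k : ℝ) : ℂ) * ζ k ≠
          ((0 : ℝ) : ℂ) + ((1 : ℝ) : ℂ) * ξ k := by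
      intro x y ζ ξ c hζ hξ
      have h2 := (tendsto_const_nhds (x := (((a x.1 : ℚ) : ℝ) : ℂ)) (f := atTop)).add (hεC.mul hζ)
      have h3 := h2.sub hξ
      rw [zero_mul, add_zero] at h3
      filter_upwards [h3.eventually_ne (sub_ne_zero.2 (hzhne y x.1).symm)] with k hk h4
      apply hk
      rw [h4, Complex.ofReal_zero, Complex.ofReal_one, zero_add, one_mul, sub_self]
    rintro (x | x) (y | y) hxy ζ ξ hζ hξ
    · simp only [Sum.elim_inl] at hζ hξ ⊢
      by_cases hj : x.1 = y.1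
      · have hne : (((κ x.1 : ℚ) : ℝ) : ℂ) * z0 x.1 x.2 ≠ (((κ y.1 : ℚ) : ℝ) : ℂ) * z0 y.1 y.2 := by
          intro h2
          rw [hj] at h2
          have h3 := mul_left_cancel₀ (hκC y.1) h2
          exact hxy (by rw [Prod.ext hj (hz0 y.1 h3)])
        have h2 := (hζ.sub hξ).eventually_ne (sub_ne_zero.2 hne)
        filter_upwards [h2] with k hk h3
        apply hk
        rw [hj] at h3
        have h4 : ((ε k : ℝ) : ℂ) ≠ 0 := by exact_mod_cast (hεR k).ne'
        exact sub_eq_zero.2 (mul_left_cancel₀ h4 (add_left_cancel h3))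
      · have h2 := ((tendsto_const_nhds (x := (((a x.1 : ℚ) : ℝ) : ℂ)) (f := atTop)).add
          (hεC.mul hζ)).sub
          ((tendsto_const_nhds (x := (((a y.1 : ℚ) : ℝ) : ℂ)) (f := atTop)).add (hεC.mul hξ))
        rw [zero_mul, zero_mul, add_zero, add_zero] at h2
        have h3 : (((a x.1 : ℚ) : ℝ) : ℂ) - (((a y.1 : ℚ) : ℝ) : ℂ) ≠ 0 :=
          sub_ne_zero.2 fun h => hj (hainj (by exact_mod_cast h))
        filter_upwards [h2.eventually_ne h3] with k hk h4
        exact hk (sub_eq_zero.2 h4)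
    · exact hmix x y ζ ξ _ hζ hξ
    · filter_upwards [hmix y x ξ ζ _ hξ hζ] with k hk h2
      exact hk h2.symm
    · simp only [Sum.elim_inr] at hζ hξ ⊢
      have hne' : zh x ≠ zh y := fun h => hxy (by rw [hzh h])
      filter_upwards [(hζ.sub hξ).eventually_ne (sub_ne_zero.2 hne')] with k hk h2
      apply hk
      rw [Complex.ofReal_one, one_mul, one_mul] at h2
      exact sub_eq_zero.2 (add_left_cancel h2)

end Pool.Agent.J4H20.LV
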