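import Pool.Agent.J4H20.LV.Stm
import Pool.Agent.J4H20.TQ.LIM

/-!
# Project LV: (SHA), the limits
-/

set_option autoImplicit false

namespace Pool.Agent.J4H20.LV

open Polynomial Filter Topology Pool.Agent.J4H21.TP Pool.Agent.J4H20.TQ

/-- composition with a convergent sequence of polynomials -/
lemma CT.comp_left (h : ℝ[X]) {L : ℕ → ℝ[X]} {P : ℝ[X]} (hL : CT L P) :
    CT (fun k => h.comp (L k)) (h.comp P) := by
  have h1 : ∀ q : ℝ[X], h.comp q = ∑ i ∈ Finset.range (h.natDegree + 1), C (h.coeff i) * q ^ i := by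
    intro q
    rw [comp, eval₂_eq_sum_range]
  simp only [h1]
  exact CT.sum _ fun i _ => (CT.const _).mul (hL.pow i)

/-- a product of factors near `Y` -/
lemma psq {ι : Type} (s : Finset ι) (Y : ℝ[X]) (c : ι → ℝ) (ε : ℕ → ℝ)
    (hε : Tendsto ε atTop (𝓝 0)) :
    ∃ Q : ℕ → ℝ[X], (∀ k, ∏ i ∈ s, (Y - C (ε k * c i)) = Y ^ s.card -
      C (ε k * ∑ i ∈ s, c i) * Y ^ (s.card - 1) + C (ε k ^ 2) * Q k) ∧ ∃ P, CT Q P := by
  classical
  induction s using Finset.induction_on with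
  | empty => exact ⟨fun _ => 0, fun k => by simp, 0, CT.const 0⟩
  | insert a s ha ih =>
    obtain ⟨Q, hQ, P, hP⟩ := ih
    refine ⟨fun k => C (c a * ∑ i ∈ s, c i) * Y ^ (s.card - 1) + (Y - C (ε k * c a)) * Q k,
      fun k => ?_, _, ((CT.const _).add (((CT.const Y).sub (CT.cc (hε.mul_const _))).mul hP))⟩
    rw [Finset.prod_insert ha, hQ k, Finset.sum_insert ha, Finset.card_insert_of_notMem ha,
      Nat.add_sub_cancel]
    have h1 : C (∑ i ∈ s, c i) * (Y * Y ^ (s.card - 1)) = C (∑ i ∈ s, c i) * Y ^ s.card := by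
      rcases s.eq_empty_or_nonempty with rfl | hs
      · simp
      · have h2 : s.card ≠ 0 := Finset.card_ne_zero.2 hs
        obtain ⟨n, hn⟩ := Nat.exists_eq_succ_of_ne_zero h2
        rw [hn, Nat.succ_sub_one, pow_succ Y n]
        ring
    simp only [C_mul, C_add, C_pow]
    linear_combination (-(C (ε k))) * h1

/-- the product over all places -/
lemma prodall {m e : ℕ} (hm : m ≠ 0) (a : Fin e → ℝ) (α : Fin m × Fin e → ℝ)
    (hα : ∀ l, ∑ i, α (i, l) = 0) (ε : ℕ → ℝ) (hε : Tendsto ε atTop (𝓝 0)) :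
    ∃ Z : ℕ → ℝ[X], (∀ k, ∏ i : Fin m × Fin e, (X - C (a i.2 + ε k * α i)) =
      (∏ l, (X - C (a l))) ^ m + C (ε k ^ 2) * Z k) ∧ ∃ P, CT Z P := by
  classical
  have h1 : ∀ l : Fin e, ∃ Q : ℕ → ℝ[X], (∀ k, ∏ i : Fin m, (X - C (a l + ε k * α (i, l))) =
      (X - C (a l)) ^ m + C (ε k ^ 2) * Q k) ∧ ∃ P, CT Q P := by
    intro l
    obtain ⟨Q, hQ, hP⟩ := psq (Finset.univ : Finset (Fin m)) (X - C (a l)) (fun i => α (i, l)) ε hε
    refine ⟨Q, fun k => ?_, hP⟩
    have h2 := hQ k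
    rw [hα l, mul_zero, C_0, zero_mul, sub_zero, Finset.card_univ, Fintype.card_fin] at h2
    rw [← h2]
    refine Finset.prod_congr rfl fun i _ => ?_
    rw [C_add]
    ring
  choose Q hQ hP using h1
  have h3 : ∀ s : Finset (Fin e), ∃ Z : ℕ → ℝ[X], (∀ k, ∏ l ∈ s, ((X - C (a l)) ^ m +
      C (ε k ^ 2) * Q l k) = (∏ l ∈ s, (X - C (a l))) ^ m + C (ε k ^ 2) * Z k) ∧ ∃ P, CT Z P := by
    intro s
    induction s using Finset.induction_on with
    | empty => exact ⟨fun _ => 0, fun k => by simp, 0, CT.const 0⟩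
    | insert b s hb ih =>
      obtain ⟨Z, hZ, P, hPZ⟩ := ih
      obtain ⟨P', hP'⟩ := hP b
      refine ⟨fun k => (X - C (a b)) ^ m * Z k + Q b k * ((∏ l ∈ s, (X - C (a l))) ^ m +
        C (ε k ^ 2) * Z k), fun k => ?_, _, ((CT.const _).mul hPZ).add
          (hP'.mul ((CT.const _).add ((CT.cc (hε.pow 2)).mul hPZ)))⟩
      rw [Finset.prod_insert hb, Finset.prod_insert hb, hZ k, mul_pow]
      ring
  obtain ⟨Z, hZ, hPZ⟩ := h3 Finset.univ
  refine ⟨Z, fun k => ?_, hPZ⟩
  rw [Fintype.prod_prod_type_right]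
  simp only [hQ]
  exact hZ k

/-- the limit at the zeros of `h` -/
lemma limH {m e : ℕ} (hm : m ≠ 0) (a : Fin e → ℝ) (α : Fin m × Fin e → ℝ)
    (hα : ∀ l, ∑ i, α (i, l) = 0) (ε : ℕ → ℝ) (hε0 : ∀ k, ε k ≠ 0) (hε : Tendsto ε atTop (𝓝 0))
    (U : ℕ → ℝ[X]) (hU : ∃ P, CT U P) (h : ℝ[X]) (d : ℕ) :
    Tendsto (fun k => (ε k)⁻¹ * ((∏ l, (X - C (a l)) + C (ε k ^ 2) * U k + C (ε k) * h) ^ m -
      ∏ i : Fin m × Fin e, (X - C (a i.2 + ε k * α i))).coeff d) atTop
      (𝓝 ((C (m : ℝ) * h * (∏ l, (X - C (a l))) ^ (m - 1)).coeff d)) := by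
  obtain ⟨Z, hZ, P, hP⟩ := prodall hm a α hα ε hε
  obtain ⟨PU, hPU⟩ := hU
  set A : ℝ[X] := ∏ l, (X - C (a l)) with hA
  have hY : CT (fun k => C (ε k) * U k + h) h := by
    have h1 := ((CT.cc hε).mul hPU).add (CT.const h)
    rw [C_0, zero_mul, zero_add] at h1
    exact h1
  have hAY : CT (fun k => A + C (ε k) * (C (ε k) * U k + h)) A := by
    have h1 := (CT.const A).add ((CT.cc hε).mul hY)
    rw [C_0, zero_mul, add_zero] at h1
    exact h1
  have hS : CT (fun k => (C (ε k) * U k + h) * (∑ i ∈ Finset.range m,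
      (A + C (ε k) * (C (ε k) * U k + h)) ^ i * A ^ (m - 1 - i)) - C (ε k) * Z k)
      (C (m : ℝ) * h * A ^ (m - 1)) := by
    have h1 := (hY.mul (CT.sum (Finset.range m)
      (Q := fun i k => (A + C (ε k) * (C (ε k) * U k + h)) ^ i * A ^ (m - 1 - i))
      (P := fun i => A ^ i * A ^ (m - 1 - i)) fun i _ => (hAY.pow i).mul (CT.const _))).sub
      ((CT.cc hε).mul hP)
    rw [C_0, zero_mul, sub_zero] at h1
    have h2 : ∑ i ∈ Finset.range m, A ^ i * A ^ (m - 1 - i) = C (m : ℝ) * A ^ (m - 1) := by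
      rw [Finset.sum_congr rfl (g := fun _ => A ^ (m - 1))]
      · rw [Finset.sum_const, Finset.card_range, nsmul_eq_mul]
        simp
      · intro i hi
        rw [Finset.mem_range] at hi
        rw [← pow_add]
        congr 1
        omega
    rw [h2] at h1
    have h3 : h * (C (m : ℝ) * A ^ (m - 1)) = C (m : ℝ) * h * A ^ (m - 1) := by ring
    rw [h3] at h1
    exact h1
  refine (hS d).congr fun k => ?_
  have h4 : (A + C (ε k ^ 2) * U k + C (ε k) * h) ^ m -
      ∏ i : Fin m × Fin e, (X - C (a i.2 + ε k * α i)) = C (ε k) *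
      ((C (ε k) * U k + h) * (∑ i ∈ Finset.range m,
      (A + C (ε k) * (C (ε k) * U k + h)) ^ i * A ^ (m - 1 - i)) - C (ε k) * Z k) := by
    rw [hZ k]
    have h5 : A + C (ε k ^ 2) * U k + C (ε k) * h = A + C (ε k) * (C (ε k) * U k + h) := by
      rw [C_pow]; ring
    rw [h5]
    have h6 := (Commute.all (A + C (ε k) * (C (ε k) * U k + h)) A).mul_geom_sum₂ m
    rw [add_sub_cancel_left] at h6
    rw [C_pow]
    linear_combination -h6
  rw [h4, coeff_C_mul, inv_mul_cancel_left₀ (hε0 k)]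

/-- the limit near `a j` -/
lemma limA {m e : ℕ} (a : Fin e → ℝ) (α : Fin m × Fin e → ℝ) (j : Fin e) (E : ℕ → ℝ)
    (hE0 : ∀ k, E k ≠ 0) (hEl : Tendsto E atTop (𝓝 0)) (c : Fin e → ℕ → ℝ)
    (hc : ∀ l, ∃ x, Tendsto (c l) atTop (𝓝 x))
    (h : ℝ[X]) (B : ℝ) (hB : B = ∏ l ∈ Finset.univ.erase j, (a j - a l)) (d : ℕ) :
    Tendsto (fun k => ((E k) ^ m)⁻¹ *
      (((∏ l, (X - C (a l)) + C (E k ^ 2) * (∑ l : Fin e, C (c l k) * X ^ (l : ℕ)) +
        C (E k) * h) ^ m - ∏ i : Fin m × Fin e, (X - C (a i.2 + E k * α i))).comp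
          (C (a j) + C (E k) * X)).coeff d) atTop
      (𝓝 (((C B * X + C (h.eval (a j))) ^ m - C B ^ m * ∏ i, (X - C (α (i, j))) : ℝ[X]).coeff d)) := by
  choose x hx using hc
  set L : ℕ → ℝ[X] := fun k => C (a j) + C (E k) * X with hL
  set W : ℕ → ℝ[X] := fun k => ∏ l ∈ Finset.univ.erase j, (L k - C (a l)) with hW
  set V : ℕ → ℝ[X] := fun k => ∏ i : Fin m, ∏ l ∈ Finset.univ.erase j,
    (L k - C (a l + E k * α (i, l))) with hV
  set H : ℕ → ℝ[X] := fun k => ∑ l : Fin e, C (c l k) * L k ^ (l : ℕ) with hH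
  have cL : CT L (C (a j)) := by
    have h1 := (CT.const (C (a j))).add ((CT.cc hEl).mul (CT.const X))
    rw [C_0, zero_mul, add_zero] at h1
    exact h1
  have cW : CT W (C B) := by
    have h1 := CT.prod (Finset.univ.erase j) (Q := fun l k => L k - C (a l))
      (P := fun l => C (a j) - C (a l)) fun l _ => cL.sub (CT.const _)
    have h2 : ∏ l ∈ Finset.univ.erase j, (C (a j) - C (a l)) = C B := by
      rw [hB, map_prod]
      exact Finset.prod_congr rfl fun l _ => by rw [C_sub]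
    rw [h2] at h1
    exact h1
  have cV : CT V (C B ^ m) := by
    have h1 := CT.prod Finset.univ (Q := fun (i : Fin m) k => ∏ l ∈ Finset.univ.erase j,
      (L k - C (a l + E k * α (i, l))))
      (P := fun _ => ∏ l ∈ Finset.univ.erase j, (C (a j) - C (a l + 0 * α (_, l))))
      fun i _ => CT.prod _ fun l _ => cL.sub (CT.cc (tendsto_const_nhds.add (hEl.mul_const _)))
    have h2 : ∀ i : Fin m, ∏ l ∈ Finset.univ.erase j, (C (a j) - C (a l + 0 * α (i, l))) = C B := by
      intro i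
      rw [hB, map_prod]
      exact Finset.prod_congr rfl fun l _ => by rw [C_sub, zero_mul, add_zero]
    simp only [h2, Finset.prod_const, Finset.card_univ, Fintype.card_fin] at h1
    exact h1
  have cH : CT H (∑ l : Fin e, C (x l) * C (a j) ^ (l : ℕ)) :=
    CT.sum _ fun l _ => (CT.cc (hx l)).mul (cL.pow _)
  have chL : CT (fun k => h.comp (L k)) (C (h.eval (a j))) := by
    have h1 := CT.comp_left h cL
    rw [comp_C] at h1
    exact h1
  have key : ∀ k, ((∏ l, (X - C (a l)) + C (E k ^ 2) * (∑ l : Fin e, C (c l k) * X ^ (l : ℕ)) +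
        C (E k) * h) ^ m - ∏ i : Fin m × Fin e, (X - C (a i.2 + E k * α i))).comp (L k) =
      C (E k ^ m) * ((X * W k + C (E k) * H k + h.comp (L k)) ^ m -
        (∏ i, (X - C (α (i, j)))) * V k) := by
    intro k
    have h1 : ∏ l, (L k - C (a l)) = C (E k) * X * W k := by
      rw [← Finset.mul_prod_erase _ _ (Finset.mem_univ j)]
      congr 1
      simp only [hL]
      ring
    have h2 : ∏ i : Fin m × Fin e, (L k - C (a i.2 + E k * α i)) =
        C (E k ^ m) * ((∏ i, (X - C (α (i, j)))) * V k) := by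
      rw [Fintype.prod_prod_type]
      have h3 : ∀ i : Fin m, ∏ l : Fin e, (L k - C (a l + E k * α (i, l))) =
          C (E k) * ((X - C (α (i, j))) * ∏ l ∈ Finset.univ.erase j,
            (L k - C (a l + E k * α (i, l)))) := by
        intro i
        rw [← Finset.mul_prod_erase _ _ (Finset.mem_univ j), ← mul_assoc]
        congr 1
        simp only [hL, C_add, C_mul]
        ring
      simp only [h3]
      rw [Finset.prod_mul_distrib, Finset.prod_mul_distrib, Finset.prod_const, Finset.card_univ,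
        Fintype.card_fin, C_pow]
    have h4 : (∑ l : Fin e, C (c l k) * X ^ (l : ℕ) : ℝ[X]).comp (L k) = H k := by
      simp only [hH]
      rw [Polynomial.sum_comp]
      simp
    rw [sub_comp, pow_comp, add_comp, add_comp, mul_comp, mul_comp, prod_comp, prod_comp, h4]
    simp only [sub_comp, X_comp, C_comp]
    rw [h1, h2, mul_sub]
    congr 1
    have h6 : C (E k) * X * W k + C (E k ^ 2) * H k + C (E k) * h.comp (L k) =
        C (E k) * (X * W k + C (E k) * H k + h.comp (L k)) := by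
      simp only [C_pow]
      ring
    rw [h6, mul_pow, C_pow]
  have cAll : CT (fun k => (X * W k + C (E k) * H k + h.comp (L k)) ^ m -
      (∏ i, (X - C (α (i, j)))) * V k) ((C B * X + C (h.eval (a j))) ^ m -
        C B ^ m * ∏ i, (X - C (α (i, j)))) := by
    have h1 := (((((CT.const X).mul cW).add ((CT.cc hEl).mul cH)).add chL).pow m).sub
      ((CT.const (∏ i, (X - C (α (i, j))))).mul cV)
    rw [C_0, zero_mul, add_zero, mul_comm X, mul_comm (∏ i, (X - C (α (i, j))))] at h1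
    exact h1
  refine (cAll d).congr fun k => ?_
  rw [key k, coeff_C_mul, inv_mul_cancel_left₀ (pow_ne_zero _ (hE0 k))]

end Pool.Agent.J4H20.LV
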